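import Pool.Graph.R_pool_sql_team_ae5b0c61.H53.DmE

/-!
# Dual multiplicative approximation with one random coordinate, arbitrarily small constants
-/

open MeasureTheory Set Metric Filter Topology

namespace Pool.Agent.KS6_98.DMA
open Pool.Agent.H53.Vert (nd)
open Pool.Agent.H53.Dm

/-- the library's `caseB`, keeping the small constant -/
theorem caseB' {m : ℕ} (α : Fin (m + 1) → ℝ) (c : ℝ) (hc : 0 < c)
    (h : ∀ w : Fin (m + 1) → ℤ, w ≠ 0 → c * ps (m + 2) (2 * ∏ i, max |(w i : ℝ)| 2) ≤ nd (∑ i, w i * α i)) :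
    ∀ᵐ x : ℝ, ∀ N : ℕ, ∃ (a : ℕ) (n : Fin (m + 1) → ℕ), N ≤ a ∧ 2 ≤ a ∧ (∀ i, 2 ≤ n i) ∧
      nd (LF α n + a * x) < 1 / (N + 1) * ps (m + 2) (a * ∏ i, (n i : ℝ)) := by
  set U : ℕ → Set UnitAddCircle := fun N => {y | ∃ (a : ℕ) (n : Fin (m + 1) → ℕ), N ≤ a ∧ 2 ≤ a ∧ (∀ i, 2 ≤ n i) ∧
    ‖((LF α n : ℝ) : UnitAddCircle) + a • y‖ < 1 / (N + 1) * ps (m + 2) (a * ∏ i, (n i : ℝ))} with hU
  have hH : ∀ (a : ℕ) (n : Fin (m + 1) → ℕ), 2 ≤ a → (∀ i, 2 ≤ n i) → (2:ℝ) ≤ a * ∏ i, (n i : ℝ) := by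
    intro a n h1 h2
    have e1 : (2:ℝ) ≤ a := by exact_mod_cast h1
    have e2 := two_le_prod (fun i => (n i : ℝ)) fun i => by exact_mod_cast h2 i
    nlinarith
  have hnd : ∀ (a : ℕ) (n : Fin (m + 1) → ℕ) (x : ℝ),
      ‖((LF α n : ℝ) : UnitAddCircle) + a • (x : UnitAddCircle)‖ = nd (LF α n + a * x) := by
    intro a n x
    rw [← AddCircle.coe_nsmul, ← AddCircle.coe_add, UnitAddCircle.norm_eq, nsmul_eq_mul]
    rfl
  have hUo : ∀ N, IsOpen (U N) := by
    intro N
    simp only [hU, setOf_exists, setOf_and]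
    refine isOpen_iUnion fun a => isOpen_iUnion fun n => isOpen_const.inter (isOpen_const.inter
      (isOpen_const.inter (isOpen_lt (by fun_prop) continuous_const)))
  have hanti : Antitone U := by
    rintro N N' hN y ⟨a, n, h1, h2, h3, h4⟩
    refine ⟨a, n, hN.trans h1, h2, h3, h4.trans_le (mul_le_mul_of_nonneg_right ?_ (ps_pos _ _ (hH a n h2 h3)).le)⟩
    exact Nat.one_div_le_one_div hN
  have hz := zero_one (⋂ N, U N) (MeasurableSet.iInter fun N => (hUo N).measurableSet) (by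
      intro y hy
      rw [mem_preimage, mem_iInter] at hy
      rw [mem_iInter]
      intro N
      obtain ⟨a, n, h1, h2, h3, h4⟩ := hy (2 ^ (m + 3) * (N + 1))
      have h5 : 1 ≤ 2 ^ (m + 3) := Nat.one_le_two_pow
      refine ⟨a * 2, n, by nlinarith, by omega, h3, ?_⟩
      rw [mul_smul]
      refine h4.trans_le ?_
      have e0 := hH a n h2 h3
      have e1 := Real.log_pos (show 1 < (a:ℝ) * ∏ i, (n i : ℝ) by linarith)
      have e2 : ((a * 2 : ℕ) : ℝ) * ∏ i, (n i : ℝ) = 2 * (a * ∏ i, (n i : ℝ)) := by push_cast; ring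
      rw [e2]
      generalize (a:ℝ) * ∏ i, (n i : ℝ) = H at e0 e1
      refine le_trans ?_ (mul_le_mul_of_nonneg_left (ps_ge (m + 2) (2 * H) (2 * H) (2 * Real.log H) (by linarith) le_rfl
        (by rw [Real.log_mul (by norm_num) (by linarith)]; linarith [Real.log_le_log (by norm_num) e0])) (by positivity))
      unfold ps
      rw [one_div_mul_one_div, one_div_mul_one_div]
      refine one_div_le_one_div_of_le (by positivity) ?_
      push_cast
      have e3 : 0 < H * Real.log H ^ (m + 2) := by positivity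
      rw [mul_pow]
      ring_nf at e3 ⊢
      linarith) (by
      set V : ℕ → Set ℝ := fun N => (fun β : ℝ => (β : UnitAddCircle)) ⁻¹' U N ∩ Ioc (-1) 2 with hV
      have hfin : ∀ N, volume (V N) ≠ ⊤ := fun N => ne_top_of_le_ne_top (by simp) (measure_mono inter_subset_right)
      have hVa : Antitone V := fun N N' h => inter_subset_inter_left _ (preimage_mono (hanti h))
      have hlim := hVa.measure_iInter (μ := volume) (fun N => ((AddCircle.measurable_mk'
        (hUo N).measurableSet).inter measurableSet_Ioc).nullMeasurableSet) ⟨0, hfin 0⟩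
      have hge : ENNReal.ofReal (1 / (2 * CC m)) ≤ volume (⋂ N, V N) := by
        rw [hlim]
        refine le_iInf fun N => ?_
        rw [ENNReal.ofReal_le_iff_le_toReal (hfin N)]
        have := lower α c hc h (1 / (N + 1)) (by positivity) (by
          rw [div_le_one (by positivity)]; linarith [Nat.cast_nonneg (α := ℝ) N]) N
        simpa only [hV, hU, preimage_setOf_eq, hnd, measureReal_def] using this
      intro h0
      have hs : (⋂ N, V N) ⊆ (fun β : ℝ => (β : UnitAddCircle)) ⁻¹' ⋂ N, U N := by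
        rw [preimage_iInter]
        exact iInter_mono fun N => inter_subset_left
      have h1 := (hge.trans (measure_mono hs)).trans h0.le
      have h2 := CC_pos m
      rw [nonpos_iff_eq_zero, ENNReal.ofReal_eq_zero] at h1
      exact absurd h1 (not_le.2 (by positivity)))
  filter_upwards [hz] with x hx N
  obtain ⟨a, n, h1, h2, h3, h4⟩ := mem_iInter.1 hx N
  refine ⟨a, n, h1, h2, h3, ?_⟩
  rw [hnd] at h4
  exact h4

lemma dich' {m : ℕ} (α : Fin (m + 1) → ℝ) (ε : ℝ) (hε : 0 < ε)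
    (hf : {w : Fin (m + 1) → ℤ | nd (∑ i, w i * α i) < ε * ps (m + 2) (2 * ∏ i, max |(w i : ℝ)| 2)}.Finite) :
    ∃ c : ℝ, 0 < c ∧ ∀ w : Fin (m + 1) → ℤ, w ≠ 0 →
      c * ps (m + 2) (2 * ∏ i, max |(w i : ℝ)| 2) ≤ nd (∑ i, w i * α i) := by
  have hp : ∀ w : Fin (m + 1) → ℤ, 0 < ps (m + 2) (2 * ∏ i, max |(w i : ℝ)| 2) := fun w =>
    ps_pos _ _ (by linarith [two_le_prod (fun i => max |(w i : ℝ)| 2) fun i => le_max_right _ _])
  have hpos : ∀ w : Fin (m + 1) → ℤ, w ≠ 0 → 0 < nd (∑ i, w i * α i) := by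
    intro w hw
    refine abs_pos.2 fun h0 => ?_
    refine Set.infinite_of_injective_forall_mem (f := fun j : ℤ => j • w) (smul_left_injective ℤ hw) (fun j => ?_) hf
    refine lt_of_le_of_lt ((round_le _ (j * round (∑ i, w i * α i))).trans_eq ?_) (mul_pos hε (hp _))
    simp only [Pi.smul_apply, smul_eq_mul]
    push_cast
    rw [← sub_eq_zero.1 h0, Finset.mul_sum]
    simp only [mul_assoc, sub_self, abs_zero]
  obtain ⟨C, hC⟩ := (hf.image fun w => ps (m + 2) (2 * ∏ i, max |(w i : ℝ)| 2) / nd (∑ i, w i * α i)).bddAbove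
  refine ⟨min ε (1 / max C 1), lt_min hε (by positivity), fun w hw => ?_⟩
  by_cases h : nd (∑ i, w i * α i) < ε * ps (m + 2) (2 * ∏ i, max |(w i : ℝ)| 2)
  · refine (mul_le_mul_of_nonneg_right (min_le_right _ _) (hp w).le).trans ?_
    rw [one_div_mul_eq_div, div_le_iff₀ (by positivity), mul_comm (nd _), ← div_le_iff₀ (hpos w hw)]
    exact (hC ⟨w, h, rfl⟩).trans (le_max_left _ _)
  · exact (mul_le_mul_of_nonneg_right (min_le_left _ _) (hp w).le).trans (not_lt.1 h)

theorem main' (m : ℕ) (α : Fin (m + 1) → ℝ) : ∀ᵐ t : ℝ, ∀ ε : ℝ, 0 < ε →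
    Set.Infinite {n : Fin (m + 2) → ℤ |
    nd (∑ i : Fin (m + 1), (n (Fin.castSucc i) : ℝ) * α i + (n (Fin.last (m + 1)) : ℝ) * t) <
      ε * ps (m + 2) (∏ i : Fin (m + 2), max |(n i : ℝ)| 2)} := by
  by_cases hf : ∃ ε : ℝ, 0 < ε ∧
      {w : Fin (m + 1) → ℤ | nd (∑ i, w i * α i) < ε * ps (m + 2) (2 * ∏ i, max |(w i : ℝ)| 2)}.Finite
  · obtain ⟨ε₀, hε₀, hf⟩ := hf
    obtain ⟨c, hc, h⟩ := dich' α ε₀ hε₀ hf
    filter_upwards [caseB' α c hc h] with t ht ε hε
    obtain ⟨N₀, hN₀⟩ := exists_nat_gt (1 / ε)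
    refine Set.Infinite.of_image (fun n => n (Fin.last (m + 1))) (Set.infinite_of_forall_exists_gt fun z => ?_)
    obtain ⟨a, n, h1, h2, h3, h4⟩ := ht (z.toNat + 1 + N₀)
    refine ⟨a, ⟨Fin.snoc (α := fun _ => ℤ) (fun i => (n i : ℤ)) a, ?_, by simp⟩, by omega⟩
    rw [mem_setOf_eq, Fin.prod_univ_castSucc]
    simp only [Fin.snoc_castSucc, Fin.snoc_last, Int.cast_natCast, Nat.abs_cast]
    rw [max_eq_left (by exact_mod_cast h2), mul_comm _ (a:ℝ),
      Finset.prod_congr rfl fun i _ => max_eq_left (show (2:ℝ) ≤ n i by exact_mod_cast h3 i)]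
    have hH : (2:ℝ) ≤ a * ∏ i, (n i : ℝ) := by
      have e1 : (2:ℝ) ≤ a := by exact_mod_cast h2
      have e2 := two_le_prod (fun i => (n i : ℝ)) fun i => by exact_mod_cast h3 i
      nlinarith
    refine lt_of_lt_of_le h4 (mul_le_mul_of_nonneg_right ?_ (ps_pos _ _ hH).le)
    rw [div_le_iff₀ (by positivity)]
    push_cast
    have e3 : 1 < ε * N₀ := by
      rw [div_lt_iff₀ hε] at hN₀
      linarith
    have e4 : (0:ℝ) ≤ z.toNat := Nat.cast_nonneg _
    nlinarith
  · push Not at hf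
    refine Eventually.of_forall fun t ε hε => ?_
    refine Set.infinite_of_injOn_mapsTo (f := fun w : Fin (m + 1) → ℤ => Fin.snoc (α := fun _ => ℤ) w 0)
      (fun w _ w' _ h => funext fun i => by simpa using congrFun h (Fin.castSucc i)) (fun w hw => ?_) (hf ε hε)
    rw [mem_setOf_eq, Fin.prod_univ_castSucc]
    simp only [Fin.snoc_castSucc, Fin.snoc_last, Int.cast_zero, abs_zero, zero_mul, add_zero]
    rw [max_eq_right (by norm_num : (0:ℝ) ≤ 2), mul_comm _ (2:ℝ)]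
    exact hw

end Pool.Agent.KS6_98.DMA
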